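import Pool.Agent.K1H27.PL.Stm
import Pool.Agent.K1H31.SN.Areag

set_option autoImplicit false

/-! `S_CORB`: bounded, `L^r` and weakly singular kernels. -/

namespace Pool.Agent.K1H99.PL

open MeasureTheory Set Metric Filter Topology
open scoped ENNReal NNReal
open Pool.Agent.K1H27.PL

section
variable {S : Type} [MeasurableSpace S] {μ : Measure S} {φ : S → ℂ}

theorem map_le (hφ : Measurable φ) {M : ℝ} (hM : ∀ s, ‖φ s‖ ≤ M) {C : ℝ≥0}
    (hC : ∀ B : Set ℂ, MeasurableSet B → μ (φ ⁻¹' B) ≤ C * volume B) :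
    μ.map φ ≤ (C : ℝ≥0∞) • (volume : Measure ℂ).restrict (ball 0 (M + 1)) := by
  refine Measure.le_iff.mpr fun B hB => ?_
  rw [Measure.map_apply hφ hB, Measure.smul_apply, Measure.restrict_apply hB, smul_eq_mul]
  have e : φ ⁻¹' B = φ ⁻¹' (B ∩ ball 0 (M + 1)) := by
    ext s
    simp only [mem_preimage, mem_inter_iff, mem_ball_zero_iff]
    exact ⟨fun h => ⟨h, by linarith [hM s]⟩, fun h => h.1⟩
  rw [e]
  exact hC _ (hB.inter measurableSet_ball)

theorem basic (hφ : Measurable φ) {M : ℝ} (hM : ∀ s, ‖φ s‖ ≤ M) {C : ℝ≥0}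
    (hC : ∀ B : Set ℂ, MeasurableSet B → μ (φ ⁻¹' B) ≤ C * volume B) {γ : ℝ} (h0 : 0 ≤ γ)
    (h2 : γ < 2) : ∃ C' : ℝ≥0, ∀ z : ℂ, ∫⁻ s, (‖z - φ s‖ₑ⁻¹) ^ γ ∂μ ≤ C' := by
  obtain ⟨C₁, hC₁⟩ := Pool.Agent.K1H31.SN.t_AREAG (M + 1) γ h0 h2
  refine ⟨C * C₁, fun z => ?_⟩
  have hmeas : Measurable fun w : ℂ => (‖z - w‖ₑ⁻¹) ^ γ :=
    ((measurable_const.sub measurable_id).enorm.inv).pow_const γ
  calc ∫⁻ s, (‖z - φ s‖ₑ⁻¹) ^ γ ∂μ = ∫⁻ w, (‖z - w‖ₑ⁻¹) ^ γ ∂(μ.map φ) :=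
        (lintegral_map hmeas hφ).symm
    _ ≤ ∫⁻ w, (‖z - w‖ₑ⁻¹) ^ γ ∂((C : ℝ≥0∞) • (volume : Measure ℂ).restrict (ball 0 (M + 1))) :=
        lintegral_mono' (map_le hφ hM hC) le_rfl
    _ = C * ∫⁻ w in ball (0:ℂ) (M + 1), (‖w - z‖ₑ⁻¹) ^ γ := by
        rw [lintegral_smul_measure, smul_eq_mul]
        congr 1
        refine lintegral_congr fun w => ?_
        rw [enorm_sub_rev]
    _ ≤ C * C₁ := by gcongr; exact hC₁ z
    _ = ((C * C₁ : ℝ≥0) : ℝ≥0∞) := by push_cast; rfl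

theorem univ_le (hφ : Measurable φ) {M : ℝ} (hM : ∀ s, ‖φ s‖ ≤ M) {C : ℝ≥0}
    (hC : ∀ B : Set ℂ, MeasurableSet B → μ (φ ⁻¹' B) ≤ C * volume B) : μ univ ≠ ⊤ := by
  obtain ⟨C', h⟩ := basic hφ hM hC le_rfl (by norm_num : (0:ℝ) < 2)
  have := h 0
  simp only [ENNReal.rpow_zero, lintegral_const, one_mul] at this
  exact ne_top_of_le_ne_top ENNReal.coe_ne_top this

theorem no_atom {C : ℝ≥0}
    (hC : ∀ B : Set ℂ, MeasurableSet B → μ (φ ⁻¹' B) ≤ C * volume B) (z : ℂ) :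
    ∀ᵐ s ∂μ, φ s ≠ z := by
  have h := hC {z} (measurableSet_singleton z)
  rw [measure_singleton, mul_zero] at h
  have h2 : μ {s | ¬ φ s ≠ z} = 0 := by
    refine le_antisymm (le_trans (measure_mono ?_) h) bot_le
    intro s hs
    simpa using hs
  exact h2

theorem essR_pos (hφ : Measurable φ) {M : ℝ} (hM : ∀ s, ‖φ s‖ ≤ M) {C : ℝ≥0}
    (hC : ∀ B : Set ℂ, MeasurableSet B → μ (φ ⁻¹' B) ≤ C * volume B) (hμ : μ univ ≠ 0) :
    0 < volume (essR μ φ) := by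
  by_contra hcon
  have hvol : volume (essR μ φ) = 0 := le_antisymm (not_lt.mp hcon) bot_le
  apply hμ
  have h1 : (μ.map φ) (essR μ φ)ᶜ = 0 := by
    refine measure_null_of_locally_null _ fun x hx => ?_
    simp only [essR, mem_compl_iff, mem_ofPred_eq, not_forall, not_lt] at hx
    obtain ⟨ε, hε, h⟩ := hx
    refine ⟨ball x ε, mem_nhdsWithin_of_mem_nhds (ball_mem_nhds x hε), ?_⟩
    rw [Measure.map_apply hφ measurableSet_ball]
    refine le_antisymm (le_trans (measure_mono ?_) h) bot_le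
    intro s hs
    simpa [dist_eq_norm] using hs
  have h2 : (μ.map φ) (essR μ φ) = 0 := by
    have h3 := (map_le hφ hM hC) (essR μ φ)
    refine le_antisymm (h3.trans ?_) bot_le
    rw [Measure.smul_apply, smul_eq_mul]
    have : (volume.restrict (ball (0:ℂ) (M + 1))) (essR μ φ) ≤ 0 :=
      (Measure.restrict_apply_le _ _).trans hvol.le
    rw [le_antisymm this bot_le, mul_zero]
  have h3 : μ univ = (μ.map φ) univ := by rw [Measure.map_apply hφ MeasurableSet.univ, preimage_univ]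
  rw [h3, ← union_compl_self (essR μ φ)]
  exact le_antisymm ((measure_union_le _ _).trans (by rw [h1, h2, add_zero])) bot_le

end

/-- a bound for a product by the products of two of the three factors -/
theorem three (X Y Z : ℝ≥0∞) {θ γ : ℝ} (h0 : 0 ≤ θ) (h1 : θ ≤ γ) :
    X ^ (2 * θ) * (Y ^ γ * Z ^ γ) ≤
      (X * Y) ^ (θ + γ) + (X * Z) ^ (θ + γ) + (Y * Z) ^ (θ + γ) := by
  have hγ : 0 ≤ γ := h0.trans h1
  have hs : 0 ≤ γ - θ := by linarith
  have key : ∀ A B D : ℝ≥0∞, D ≤ A → D ≤ B → A ^ (2 * θ) * (B ^ γ * D ^ γ) ≤ (A * B) ^ (θ + γ) := by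
    intro A B D hA hB
    have e1 : D ^ γ = D ^ (γ - θ) * D ^ θ := by
      rw [← ENNReal.rpow_add_of_nonneg _ _ hs h0]; ring_nf
    have e2 : A ^ (θ + γ) = A ^ (2 * θ) * A ^ (γ - θ) := by
      rw [← ENNReal.rpow_add_of_nonneg _ _ (by linarith) hs]; ring_nf
    have e3 : B ^ (θ + γ) = B ^ θ * B ^ γ := ENNReal.rpow_add_of_nonneg _ _ h0 hγ
    rw [ENNReal.mul_rpow_of_nonneg _ _ (by linarith), e1, e2, e3]
    calc A ^ (2 * θ) * (B ^ γ * (D ^ (γ - θ) * D ^ θ))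
        ≤ A ^ (2 * θ) * (B ^ γ * (A ^ (γ - θ) * B ^ θ)) := by
          gcongr
      _ = _ := by ring
  have key2 : ∀ A B D : ℝ≥0∞, D ≤ A → D ≤ B → D ^ (2 * θ) * (A ^ γ * B ^ γ) ≤ (A * B) ^ (θ + γ) := by
    intro A B D hA hB
    have e1 : D ^ (2 * θ) = D ^ θ * D ^ θ := by
      rw [← ENNReal.rpow_add_of_nonneg _ _ h0 h0]; ring_nf
    have e2 : A ^ (θ + γ) = A ^ θ * A ^ γ := ENNReal.rpow_add_of_nonneg _ _ h0 hγ
    have e3 : B ^ (θ + γ) = B ^ θ * B ^ γ := ENNReal.rpow_add_of_nonneg _ _ h0 hγ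
    rw [ENNReal.mul_rpow_of_nonneg _ _ (by linarith), e1, e2, e3]
    calc D ^ θ * D ^ θ * (A ^ γ * B ^ γ) ≤ A ^ θ * B ^ θ * (A ^ γ * B ^ γ) := by
          gcongr
      _ = _ := by ring
  rcases le_total X Y with hXY | hXY
  · rcases le_total X Z with hXZ | hXZ
    · exact (key2 Y Z X hXY hXZ).trans le_add_self
    · exact (key X Y Z hXZ (hXZ.trans hXY)).trans (le_add_right (le_add_right le_rfl))
  · rcases le_total Y Z with hYZ | hYZ
    · refine le_trans (le_of_eq ?_) ((key X Z Y hXY hYZ).trans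
        (le_add_right (le_add_self)))
      ring
    · exact (key X Y Z (hYZ.trans hXY) hYZ).trans (le_add_right (le_add_right le_rfl))

/-- Young's inequality without constants -/
theorem young (a b : ℝ≥0∞) {r : ℝ} (hr : 2 < r) :
    a ^ (2 : ℝ) * b ≤ a ^ r + b ^ (r / (r - 2)) := by
  have hpq : (r / 2).HolderConjugate (r / (r - 2)) := by
    rw [Real.holderConjugate_iff]
    refine ⟨by linarith, ?_⟩
    have : r ≠ 0 := by linarith
    have h2 : r - 2 ≠ 0 := by linarith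
    field_simp
    ring
  have h := ENNReal.young_inequality (a ^ (2 : ℝ)) b hpq
  rw [← ENNReal.rpow_mul, mul_div_cancel₀ r (by norm_num : (2:ℝ) ≠ 0)] at h
  refine h.trans (add_le_add ?_ ?_)
  · refine ENNReal.div_le_of_le_mul' ?_
    refine le_mul_of_one_le_left' ?_
    exact ENNReal.one_le_ofReal.mpr hpq.lt.le
  · refine ENNReal.div_le_of_le_mul' ?_
    refine le_mul_of_one_le_left' ?_
    exact ENNReal.one_le_ofReal.mpr hpq.symm.lt.le

theorem t_CORB : S_CORB := by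
  intro S _ μ _ p q hpq hp hq φ hφ ⟨M, hM⟩ C hC
  refine ⟨fun hμ => essR_pos hφ hM hC hμ, ?_, ?_⟩
  · -- bounded kernels
    rintro k hk ⟨M', hM'⟩
    obtain ⟨C', hC'⟩ := basic hφ hM hC (by norm_num : (0:ℝ) ≤ 3 / 2) (by norm_num)
    set A : ℝ≥0∞ := ENNReal.ofReal M' ^ q.toReal * C' with hA
    have hAtop : A ≠ ⊤ := ENNReal.mul_ne_top
      (ENNReal.rpow_ne_top_of_nonneg ENNReal.toReal_nonneg ENNReal.ofReal_ne_top)
      ENNReal.coe_ne_top
    set B : ℝ≥0∞ := A ^ (p.toReal / q.toReal) * C' with hB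
    have hBtop : B ≠ ⊤ := ENNReal.mul_ne_top
      (ENNReal.rpow_ne_top_of_nonneg (by positivity) hAtop) ENNReal.coe_ne_top
    refine ⟨B.toNNReal, fun z _ z' _ => ?_⟩
    rw [ENNReal.coe_toNNReal hBtop]
    have hin : ∀ s, ∫⁻ t, ‖k s t‖ₑ ^ q.toReal * (‖z' - φ t‖ₑ⁻¹) ^ (3 / 2 : ℝ) ∂μ ≤ A := by
      intro s
      calc ∫⁻ t, ‖k s t‖ₑ ^ q.toReal * (‖z' - φ t‖ₑ⁻¹) ^ (3 / 2 : ℝ) ∂μ
          ≤ ∫⁻ t, ENNReal.ofReal M' ^ q.toReal * (‖z' - φ t‖ₑ⁻¹) ^ (3 / 2 : ℝ) ∂μ := by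
            refine lintegral_mono fun t => ?_
            gcongr
            rw [← ofReal_norm]
            exact ENNReal.ofReal_le_ofReal (hM' s t)
        _ = ENNReal.ofReal M' ^ q.toReal * ∫⁻ t, (‖z' - φ t‖ₑ⁻¹) ^ (3 / 2 : ℝ) ∂μ :=
            lintegral_const_mul _ (((measurable_const.sub hφ).enorm.inv).pow_const _)
        _ ≤ ENNReal.ofReal M' ^ q.toReal * C' := by gcongr; exact hC' z'
        _ = A := rfl
    calc _ ≤ ∫⁻ s, A ^ (p.toReal / q.toReal) * (‖z - φ s‖ₑ⁻¹) ^ (3 / 2 : ℝ) ∂μ := by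
          refine lintegral_mono fun s => ?_
          gcongr
          exact hin s
      _ = A ^ (p.toReal / q.toReal) * ∫⁻ s, (‖z - φ s‖ₑ⁻¹) ^ (3 / 2 : ℝ) ∂μ :=
          lintegral_const_mul _ (((measurable_const.sub hφ).enorm.inv).pow_const _)
      _ ≤ A ^ (p.toReal / q.toReal) * C' := by gcongr; exact hC' z
      _ = B := rfl
  · -- weakly singular kernels
    intro k h r θ c hk hh hr hθ0 hθ1 hint hkh
    -- the exponents
    have hr0 : 0 < r := by linarith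
    obtain ⟨γ, hγ1, hγθ, hγr⟩ : ∃ γ : ℝ, 1 < γ ∧ γ < 2 - θ ∧ γ * (r / (r - 2)) < 2 := by
      have h1 : 4 / r < 1 := by rw [div_lt_one hr0]; exact hr
      have h2 : (1:ℝ) < min (2 - θ) (2 - 4 / r) := lt_min (by linarith) (by linarith)
      obtain ⟨γ, ha, hb⟩ := exists_between h2
      refine ⟨γ, ha, hb.trans_le (min_le_left _ _), ?_⟩
      have h3 : γ < 2 - 4 / r := hb.trans_le (min_le_right _ _)
      have h4 : 0 < r / (r - 2) := div_pos hr0 (by linarith)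
      calc γ * (r / (r - 2)) < (2 - 4 / r) * (r / (r - 2)) := mul_lt_mul_of_pos_right h3 h4
        _ = 2 := by
          have h5 : r - 2 ≠ 0 := by linarith
          field_simp
          ring
    have hγ0 : 0 ≤ γ := by linarith
    have hA0 : 0 ≤ θ + γ := by linarith
    have hβ0 : 0 ≤ γ * (r / (r - 2)) := mul_nonneg hγ0 (div_nonneg hr0.le (by linarith))
    obtain ⟨C₁, hC₁⟩ := basic hφ hM hC hA0 (by linarith)
    obtain ⟨C₂, hC₂⟩ := basic hφ hM hC hβ0 hγr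
    set I : ℝ≥0∞ := ∫⁻ s, ∫⁻ t, ‖h s t‖ₑ ^ r ∂μ ∂μ with hI
    set c' : ℝ≥0∞ := ENNReal.ofReal |c| with hc'
    set B : ℝ≥0∞ := 2 * (I + C₂ * C₂) + 2 * (c' ^ (2 : ℝ) * (C₁ * C₁ + C₁ * C₁ + C₁ * C₁)) with hB
    have hBtop : B ≠ ⊤ := by
      refine ENNReal.add_ne_top.mpr ⟨ENNReal.mul_ne_top (by norm_num) (ENNReal.add_ne_top.mpr
        ⟨hint, ENNReal.mul_ne_top ENNReal.coe_ne_top ENNReal.coe_ne_top⟩), ?_⟩
      refine ENNReal.mul_ne_top (by norm_num) (ENNReal.mul_ne_top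
        (ENNReal.rpow_ne_top_of_nonneg (by norm_num) ENNReal.ofReal_ne_top) ?_)
      have : (C₁ : ℝ≥0∞) * C₁ ≠ ⊤ := ENNReal.mul_ne_top ENNReal.coe_ne_top ENNReal.coe_ne_top
      exact ENNReal.add_ne_top.mpr ⟨ENNReal.add_ne_top.mpr ⟨this, this⟩, this⟩
    refine ⟨γ, hγ1, B.toNNReal, fun z _ z' _ => ?_⟩
    rw [ENNReal.coe_toNNReal hBtop]
    have e2 : (2 : ℝ≥0∞).toReal = 2 := by norm_num
    rw [e2, div_self (by norm_num : (2:ℝ) ≠ 0)]
    simp only [ENNReal.rpow_one]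
    -- measurable functions
    set Y : S → ℝ≥0∞ := fun s => ‖z - φ s‖ₑ⁻¹ with hY
    set Z : S → ℝ≥0∞ := fun t => ‖z' - φ t‖ₑ⁻¹ with hZ
    set X : S → S → ℝ≥0∞ := fun s t => ‖φ s - φ t‖ₑ⁻¹ with hX
    have mY : Measurable Y := (measurable_const.sub hφ).enorm.inv
    have mZ : Measurable Z := (measurable_const.sub hφ).enorm.inv
    have mX : Measurable (Function.uncurry X) :=
      ((hφ.comp measurable_fst).sub (hφ.comp measurable_snd)).enorm.inv
    have mH : Measurable (Function.uncurry fun s t => ‖h s t‖ₑ ^ r) := (hh.enorm).pow_const r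
    -- pointwise estimate
    have hpt : ∀ s, ∀ᵐ t ∂μ, ‖k s t‖ₑ ^ (2 : ℝ) * Z t ^ γ * Y s ^ γ ≤
        2 * (‖h s t‖ₑ ^ r + (Y s * Z t) ^ (γ * (r / (r - 2)))) +
        2 * (c' ^ (2 : ℝ) * ((X s t * Y s) ^ (θ + γ) + (X s t * Z t) ^ (θ + γ) +
          (Y s * Z t) ^ (θ + γ))) := by
      intro s
      filter_upwards [no_atom hC (φ s)] with t ht
      have hne : φ s ≠ φ t := fun h => ht h.symm
      have hpos : 0 < ‖φ s - φ t‖ := norm_pos_iff.mpr (sub_ne_zero.mpr hne)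
      have hk1 : ‖k s t‖ₑ ≤ ‖h s t‖ₑ + c' * X s t ^ θ := by
        have h1 : ‖k s t‖ ≤ |h s t| + |c| * ‖φ s - φ t‖ ^ (-θ) := by
          refine (hkh s t hne).trans ?_
          gcongr
          exact le_abs_self c
        rw [← ofReal_norm]
        refine (ENNReal.ofReal_le_ofReal h1).trans ?_
        rw [ENNReal.ofReal_add (abs_nonneg _) (by positivity),
          ENNReal.ofReal_mul (abs_nonneg _), ← ENNReal.ofReal_rpow_of_pos hpos, ofReal_norm,
          ENNReal.rpow_neg, ← ENNReal.inv_rpow, Real.enorm_eq_ofReal_abs]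
      have hk2 : ‖k s t‖ₑ ^ (2 : ℝ) ≤
          2 * ‖h s t‖ₑ ^ (2 : ℝ) + 2 * (c' ^ (2 : ℝ) * X s t ^ (2 * θ)) := by
        calc ‖k s t‖ₑ ^ (2 : ℝ) ≤ (‖h s t‖ₑ + c' * X s t ^ θ) ^ (2 : ℝ) := by gcongr
          _ ≤ 2 ^ ((2 : ℝ) - 1) * (‖h s t‖ₑ ^ (2 : ℝ) + (c' * X s t ^ θ) ^ (2 : ℝ)) :=
              ENNReal.rpow_add_le_mul_rpow_add_rpow _ _ (by norm_num)
          _ = _ := by
              have e : (2 : ℝ) - 1 = 1 := by norm_num
              rw [e, ENNReal.rpow_one, ENNReal.mul_rpow_of_nonneg _ _ (by norm_num),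
                ← ENNReal.rpow_mul, mul_comm θ 2, mul_add]
      calc ‖k s t‖ₑ ^ (2 : ℝ) * Z t ^ γ * Y s ^ γ
          ≤ (2 * ‖h s t‖ₑ ^ (2 : ℝ) + 2 * (c' ^ (2 : ℝ) * X s t ^ (2 * θ))) * Z t ^ γ * Y s ^ γ := by
            gcongr
        _ = 2 * (‖h s t‖ₑ ^ (2 : ℝ) * (Y s * Z t) ^ γ) +
            2 * (c' ^ (2 : ℝ) * (X s t ^ (2 * θ) * (Y s ^ γ * Z t ^ γ))) := by
            rw [ENNReal.mul_rpow_of_nonneg _ _ hγ0]
            ring
        _ ≤ _ := by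
            gcongr
            · refine (young (r := r) _ _ (by linarith)).trans (le_of_eq ?_)
              rw [← ENNReal.rpow_mul]
            · exact three _ _ _ hθ0 (by linarith)
    -- the double integrals
    have dYZ : ∀ (β : ℝ) (D : ℝ≥0), 0 ≤ β → (∀ z : ℂ, ∫⁻ s, (‖z - φ s‖ₑ⁻¹) ^ β ∂μ ≤ D) →
        ∫⁻ s, ∫⁻ t, (Y s * Z t) ^ β ∂μ ∂μ ≤ D * D := by
      intro β D hβ hD
      calc ∫⁻ s, ∫⁻ t, (Y s * Z t) ^ β ∂μ ∂μ = ∫⁻ s, Y s ^ β * ∫⁻ t, Z t ^ β ∂μ ∂μ := by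
            refine lintegral_congr fun s => ?_
            rw [← lintegral_const_mul _ (mZ.pow_const β)]
            refine lintegral_congr fun t => ?_
            rw [ENNReal.mul_rpow_of_nonneg _ _ hβ]
        _ ≤ ∫⁻ s, Y s ^ β * D ∂μ := by
            refine lintegral_mono fun s => ?_
            gcongr
            exact hD z'
        _ = (∫⁻ s, Y s ^ β ∂μ) * D := lintegral_mul_const _ (mY.pow_const β)
        _ ≤ D * D := by gcongr; exact hD z
    have dXY : ∫⁻ s, ∫⁻ t, (X s t * Y s) ^ (θ + γ) ∂μ ∂μ ≤ C₁ * C₁ := by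
      calc ∫⁻ s, ∫⁻ t, (X s t * Y s) ^ (θ + γ) ∂μ ∂μ =
          ∫⁻ s, (∫⁻ t, X s t ^ (θ + γ) ∂μ) * Y s ^ (θ + γ) ∂μ := by
            refine lintegral_congr fun s => ?_
            have hm : Measurable fun t => X s t ^ (θ + γ) :=
              (mX.comp measurable_prodMk_left).pow_const _
            rw [← lintegral_mul_const _ hm]
            refine lintegral_congr fun t => ?_
            rw [ENNReal.mul_rpow_of_nonneg _ _ hA0]
        _ ≤ ∫⁻ s, C₁ * Y s ^ (θ + γ) ∂μ := by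
            refine lintegral_mono fun s => ?_
            gcongr
            exact hC₁ (φ s)
        _ = C₁ * ∫⁻ s, Y s ^ (θ + γ) ∂μ := lintegral_const_mul _ (mY.pow_const _)
        _ ≤ C₁ * C₁ := by gcongr; exact hC₁ z
    have dXZ : ∫⁻ s, ∫⁻ t, (X s t * Z t) ^ (θ + γ) ∂μ ∂μ ≤ C₁ * C₁ := by
      rw [lintegral_lintegral_swap
        (((mX.mul (mZ.comp measurable_snd)).pow_const (θ + γ)).aemeasurable)]
      calc ∫⁻ t, ∫⁻ s, (X s t * Z t) ^ (θ + γ) ∂μ ∂μ =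
          ∫⁻ t, (∫⁻ s, X s t ^ (θ + γ) ∂μ) * Z t ^ (θ + γ) ∂μ := by
            refine lintegral_congr fun t => ?_
            have hm : Measurable fun s => X s t ^ (θ + γ) :=
              (mX.comp measurable_prodMk_right).pow_const _
            rw [← lintegral_mul_const _ hm]
            refine lintegral_congr fun s => ?_
            rw [ENNReal.mul_rpow_of_nonneg _ _ hA0]
        _ ≤ ∫⁻ t, C₁ * Z t ^ (θ + γ) ∂μ := by
            refine lintegral_mono fun t => ?_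
            gcongr
            refine le_trans (le_of_eq ?_) (hC₁ (φ t))
            refine lintegral_congr fun s => ?_
            simp only [hX]
            rw [enorm_sub_rev]
        _ = C₁ * ∫⁻ t, Z t ^ (θ + γ) ∂μ := lintegral_const_mul _ (mZ.pow_const _)
        _ ≤ C₁ * C₁ := by gcongr; exact hC₁ z'
    -- measurability on the product
    have m1 : Measurable (Function.uncurry fun s t => (Y s * Z t) ^ (γ * (r / (r - 2)))) :=
      ((mY.comp measurable_fst).mul (mZ.comp measurable_snd)).pow_const _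
    have m2 : Measurable (Function.uncurry fun s t => (X s t * Y s) ^ (θ + γ)) :=
      (mX.mul (mY.comp measurable_fst)).pow_const _
    have m3 : Measurable (Function.uncurry fun s t => (X s t * Z t) ^ (θ + γ)) :=
      (mX.mul (mZ.comp measurable_snd)).pow_const _
    have m4 : Measurable (Function.uncurry fun s t => (Y s * Z t) ^ (θ + γ)) :=
      ((mY.comp measurable_fst).mul (mZ.comp measurable_snd)).pow_const _
    have add2 : ∀ F G : S → S → ℝ≥0∞, Measurable (Function.uncurry F) →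
        ∫⁻ s, ∫⁻ t, (F s t + G s t) ∂μ ∂μ = ∫⁻ s, ∫⁻ t, F s t ∂μ ∂μ + ∫⁻ s, ∫⁻ t, G s t ∂μ ∂μ := by
      intro F G hF
      have h1 : Measurable fun s => ∫⁻ t, F s t ∂μ := hF.lintegral_prod_right
      rw [← lintegral_add_left h1]
      refine lintegral_congr fun s => ?_
      have h2 : Measurable fun t => F s t := hF.comp measurable_prodMk_left
      exact lintegral_add_left h2 _
    have mul2 : ∀ (a : ℝ≥0∞) (F : S → S → ℝ≥0∞), Measurable (Function.uncurry F) →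
        ∫⁻ s, ∫⁻ t, a * F s t ∂μ ∂μ = a * ∫⁻ s, ∫⁻ t, F s t ∂μ ∂μ := by
      intro a F hF
      have h1 : Measurable fun s => ∫⁻ t, F s t ∂μ := hF.lintegral_prod_right
      rw [← lintegral_const_mul _ h1]
      refine lintegral_congr fun s => ?_
      have h2 : Measurable fun t => F s t := hF.comp measurable_prodMk_left
      exact lintegral_const_mul _ h2
    have n1 : Measurable (Function.uncurry fun s t =>
        ‖h s t‖ₑ ^ r + (Y s * Z t) ^ (γ * (r / (r - 2)))) := mH.add m1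
    have n2 : Measurable (Function.uncurry fun s t =>
        2 * (‖h s t‖ₑ ^ r + (Y s * Z t) ^ (γ * (r / (r - 2))))) := n1.const_mul 2
    have n3 : Measurable (Function.uncurry fun s t =>
        (X s t * Y s) ^ (θ + γ) + (X s t * Z t) ^ (θ + γ)) := m2.add m3
    have n4 : Measurable (Function.uncurry fun s t =>
        (X s t * Y s) ^ (θ + γ) + (X s t * Z t) ^ (θ + γ) + (Y s * Z t) ^ (θ + γ)) := n3.add m4
    have n5 : Measurable (Function.uncurry fun s t =>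
        c' ^ (2 : ℝ) * ((X s t * Y s) ^ (θ + γ) + (X s t * Z t) ^ (θ + γ) +
          (Y s * Z t) ^ (θ + γ))) := n4.const_mul _
    calc ∫⁻ s, (∫⁻ t, ‖k s t‖ₑ ^ (2 : ℝ) * Z t ^ γ ∂μ) * Y s ^ γ ∂μ
        = ∫⁻ s, ∫⁻ t, ‖k s t‖ₑ ^ (2 : ℝ) * Z t ^ γ * Y s ^ γ ∂μ ∂μ := by
          refine lintegral_congr fun s => ?_
          rw [lintegral_mul_const]
          exact (((hk.comp measurable_prodMk_left).enorm).pow_const _).mul (mZ.pow_const _)
      _ ≤ ∫⁻ s, ∫⁻ t, (2 * (‖h s t‖ₑ ^ r + (Y s * Z t) ^ (γ * (r / (r - 2)))) +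
        2 * (c' ^ (2 : ℝ) * ((X s t * Y s) ^ (θ + γ) + (X s t * Z t) ^ (θ + γ) +
          (Y s * Z t) ^ (θ + γ)))) ∂μ ∂μ :=
          lintegral_mono fun s => lintegral_mono_ae (hpt s)
      _ = 2 * (I + ∫⁻ s, ∫⁻ t, (Y s * Z t) ^ (γ * (r / (r - 2))) ∂μ ∂μ) +
          2 * (c' ^ (2 : ℝ) * (∫⁻ s, ∫⁻ t, (X s t * Y s) ^ (θ + γ) ∂μ ∂μ +
            ∫⁻ s, ∫⁻ t, (X s t * Z t) ^ (θ + γ) ∂μ ∂μ +
            ∫⁻ s, ∫⁻ t, (Y s * Z t) ^ (θ + γ) ∂μ ∂μ)) := by
          rw [add2 _ _ n2, mul2 _ _ n1, add2 _ _ mH, mul2 2 _ n5, mul2 _ _ n4,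
            add2 _ _ n3, add2 _ _ m2]
      _ ≤ B := by
          rw [hB]
          gcongr
          · exact dYZ _ C₂ hβ0 hC₂
          · exact dYZ _ C₁ hA0 hC₁

end Pool.Agent.K1H99.PL
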